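import Pool.Agent.H485.CC.Ldn
import Pool.Agent.H485.CC.Ldu

/-!
# The exact rate of decay of `p_A(N)`, uniformly for `A ≥ -1/2 + δ`
-/

set_option autoImplicit false

open Filter Topology Set UpperHalfPlane MatrixGroups CongruenceSubgroup

namespace Pool.Agent.Results.MP_cc4f83_nt.DecayRate

/-- the cusp forms of weight 2 for `Γ₀(N)` -/
abbrev S2 (N : ℕ) : Type := CuspForm (Gamma0 N : Subgroup (GL (Fin 2) ℝ)) 2

/-- `H₂⁺(N)`, the even newforms: `a(1) = 1`, real coefficients, Hecke relations, and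
`f(-1/(Nz)) = - N z² f(z)` (see `W388.IsNewf`; root number `+1`) -/
def H (N : ℕ) : Set (S2 N) := {f | W388.IsNewf N 2 f 1}

/-- `L` is the L-function of `f`: the entire continuation of `∑ λ_f(n) n^(-s)`, where
`λ_f(n) = a(n) n^(-1/2)` -/
def IsLfun {N : ℕ} (f : S2 N) (L : ℂ → ℂ) : Prop :=
  Differentiable ℂ L ∧ ∀ s : ℂ, 3 < s.re → L s = ∑' n : ℕ, (W388.lamf f n : ℂ) * (n : ℂ) ^ (-s)

open Classical in
/-- the central value `L(1/2, f)` -/
noncomputable def cv {N : ℕ} (f : S2 N) : ℝ :=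
  if h : ∃ L : ℂ → ℂ, IsLfun f L then (h.choose (1 / 2)).re else 0

/-- the harmonic weight `1 / (4π⟨f, f⟩)`, where `⟨f, f⟩` is the integral of `|f|²` over
`Γ₀(N)∖ℍ` (with `y² dμ = dx dy`) -/
noncomputable def w {N : ℕ} (f : S2 N) : ℝ := 1 / (4 * Real.pi * (W388.LV.pet N 2 f f).re)

/-- the filter of the primes `N → ∞` -/
def primes : Filter ℕ := atTop ⊓ 𝓟 {N : ℕ | N.Prime}

/-- `p_A(N)`: the proportion of the even newforms of level `N` with
`L(1/2, f) > (log N)^(-A)` -/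
noncomputable def pA (A : ℝ) (N : ℕ) : ℝ :=
  (({f ∈ H N | Real.log N ^ (-A) < cv f}.ncard : ℕ) : ℝ) / (((H N).ncard : ℕ) : ℝ)

/-- the proportion of the even newforms of level `N` with `|L(1/2, f)| > (log N)^(-A)` -/
noncomputable def qA (A : ℝ) (N : ℕ) : ℝ :=
  (({f ∈ H N | Real.log N ^ (-A) < |cv f|}.ncard : ℕ) : ℝ) / (((H N).ncard : ℕ) : ℝ)

/-- the total harmonic weight of the even newforms of level `N` with
`L(1/2, f) > (log N)^(-A)` -/
noncomputable def hA (A : ℝ) (N : ℕ) : ℝ := ∑ᶠ f ∈ {f ∈ H N | Real.log N ^ (-A) < cv f}, w f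

/-- the limit: `-(1/2 - A)²/2` for `A ≤ 1/2` and `0` for `A ≥ 1/2` -/
noncomputable def G (A : ℝ) : ℝ := -((max 0 (1 / 2 - A)) ^ 2 / 2)

open Pool.Agent.K4H13.CV Pool.Agent.Y18.BSD Pool.Agent.H485.CC

theorem lfun {N : ℕ} [NeZero N] {f : S2 N} {ε : ℝ} (hf : W388.IsNewf N 2 f ε) :
    ∃ L : ℂ → ℂ, IsLfun f L ∧ L (1 / 2) = (cv f : ℂ) := by
  obtain ⟨L, hL, -⟩ := exists_IsL hf
  have h : ∃ L : ℂ → ℂ, IsLfun f L := ⟨L, hL.diff, hL.eq⟩
  have h1 : cv f = (h.choose (1 / 2)).re := by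
    unfold cv
    rw [dif_pos h]
  have h2 : h.choose (1 / 2) = bv f 0 := lv_eq hf ⟨h.choose_spec.1, h.choose_spec.2⟩
  refine ⟨h.choose, h.choose_spec, ?_⟩
  rw [h1, h2]
  exact (bv_zero_real hf).symm

theorem cv_eq {N : ℕ} [NeZero N] {f : S2 N} {ε : ℝ} (hf : W388.IsNewf N 2 f ε) :
    (cv f : ℂ) = bv f 0 := by
  obtain ⟨L, hL, h⟩ := lfun hf
  rw [← h]
  exact lv_eq hf ⟨hL.1, hL.2⟩

theorem re_cv {N : ℕ} [NeZero N] {f : S2 N} {ε : ℝ} (hf : W388.IsNewf N 2 f ε) :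
    (bv f 0).re = cv f := by
  rw [← cv_eq hf, Complex.ofReal_re]

theorem norm_cv {N : ℕ} [NeZero N] {f : S2 N} {ε : ℝ} (hf : W388.IsNewf N 2 f ε) :
    |cv f| = ‖bv f 0‖ := by
  rw [← cv_eq hf, Complex.norm_real, Real.norm_eq_abs]

theorem ev_primes {P : ℕ → Prop} (h : ∀ᶠ N : ℕ in atTop, N.Prime → P N) : ∀ᶠ N in primes, P N := by
  unfold primes
  rw [eventually_inf_principal]
  exact h

theorem rpow_ll {N : ℕ} (h : 0 < Real.log N) (x : ℝ) : Real.log N ^ x = Real.exp (x * ll N) := by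
  rw [Real.rpow_def_of_pos h, mul_comm]
  rfl

theorem w_eq {N : ℕ} (f : S2 N) : w f = W388.LV.om f := by
  unfold w W388.LV.om W388.LV.ck
  norm_num [Real.Gamma_one]
  ring

theorem w_pos {N : ℕ} [NeZero N] {f : S2 N} {ε : ℝ} (hf : W388.IsNewf N 2 f ε) : 0 < w f := by
  have h1 : 0 < (W388.LV.pet N 2 f f).re := by
    apply ((W388.LV.q_pet N 2).2.2.2 f).2.2
    intro h0
    have h1 : W388.LV.bf f 1 = 1 := hf.one
    rw [h0, Pool.Agent.W347.LV.bf_zero] at h1
    exact zero_ne_one h1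
  unfold w
  have := Real.pi_pos
  positivity

/-- the setting at a prime level -/
theorem setup {N : ℕ} (hN : N.Prime) [NeZero N] : ∃ B E : Finset (S2 N), (H N = (E : Set (S2 N))) ∧
    W388.LV.IsNewBasis N 2 B ∧ (∀ f, f ∈ E ↔ f ∈ B ∧ W388.IsNewf N 2 f 1) ∧
    W388.LV.IsNewSet N 2 B ∧ (130 ≤ N → N ≤ 72 * E.card) := by
  classical
  obtain ⟨B, hB, hBm⟩ := newform_basis N hN
  obtain ⟨E, hE⟩ : ∃ E : Finset (S2 N), ∀ f, f ∈ E ↔ W388.IsNewf N 2 f 1 := by
    refine ⟨B.filter fun f => W388.IsNewf N 2 f 1, fun f => ?_⟩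
    rw [Finset.mem_filter, hBm]
    exact ⟨fun h => h.2, fun h => ⟨⟨1, h⟩, h⟩⟩
  refine ⟨B, E, ?_, hB, fun f => ?_, ⟨hB.newf, hB.orth⟩, fun h => ?_⟩
  · ext f
    rw [Finset.mem_coe, hE]
    rfl
  · rw [hE, hBm]
    exact ⟨fun h => ⟨⟨1, h⟩, h⟩, fun h => h.2⟩
  · have h4 := even_card hN (by omega) hB hBm
    have e1 : B.filter (fun f => W388.IsNewf N 2 f 1) = E := by
      ext f
      rw [Finset.mem_filter, hBm, hE]
      exact ⟨fun h => h.2, fun h => ⟨⟨1, h⟩, h⟩⟩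
    rw [e1] at h4
    omega

/-- bounds with `(log N)^(±ε)` for every `ε` -/
theorem tends {x : ℕ → ℝ} {r : ℝ} (h : ∀ ε : ℝ, 0 < ε → ∀ᶠ N in primes,
    Real.exp ((r - ε) * ll N) ≤ x N ∧ x N ≤ Real.exp ((r + ε) * ll N)) :
    Tendsto (fun N : ℕ => Real.log (x N) / Real.log (Real.log N)) primes (𝓝 r) := by
  rw [Metric.tendsto_nhds]
  intro ε hε
  have h1 : ∀ᶠ N : ℕ in primes, 1 ≤ ll N := (ev_ll 1).filter_mono inf_le_left
  filter_upwards [h (ε / 2) (half_pos hε), h1] with N h2 h3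
  have hll : 0 < ll N := by linarith
  have hx : 0 < x N := lt_of_lt_of_le (Real.exp_pos _) h2.1
  have k1 : (r - ε / 2) * ll N ≤ Real.log (x N) := by
    rw [Real.le_log_iff_exp_le hx]
    exact h2.1
  have k2 : Real.log (x N) ≤ (r + ε / 2) * ll N := by
    rw [Real.log_le_iff_le_exp hx]
    exact h2.2
  have e1 : Real.log (Real.log N) = ll N := rfl
  rw [e1, Real.dist_eq]
  have k3 : r - ε / 2 ≤ Real.log (x N) / ll N := by rwa [le_div_iff₀ hll]
  have k4 : Real.log (x N) / ll N ≤ r + ε / 2 := by rwa [div_le_iff₀ hll]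
  rw [abs_lt]
  constructor <;> linarith

/-- the two-sided bound for the natural count -/
theorem nat_both {A : ℝ} (hA1 : -(1 / 2) < A) (hA2 : A < 1 / 2) {ε : ℝ} (hε : 0 < ε) :
    ∀ᶠ N in primes, Real.exp ((-((1 / 2 - A) ^ 2 / 2) - ε) * ll N) ≤ pA A N ∧ pA A N ≤ qA A N ∧
      qA A N ≤ Real.exp ((-((1 / 2 - A) ^ 2 / 2) + ε) * ll N) := by
  classical
  obtain ⟨C, hC0, hC⟩ := card_le
  apply ev_primes
  filter_upwards [nat_up hA1.le hA2 (half_pos hε), nat_low hA1 hA2 (half_pos hε), hC, ev_log 1,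
    eventually_ge_atTop 130, ev_lin (C + 72) (half_pos hε)] with N h1 h2 h3 h4 h5 h6 hN
  have : NeZero N := ⟨hN.ne_zero⟩
  have hN0 : (0 : ℝ) < N := by exact_mod_cast hN.pos
  have hL : 0 < Real.log N := by linarith
  obtain ⟨B, E, hE, hB, hE1, hBs, hcard⟩ := setup hN
  have hEB : E ⊆ B := fun f hf => ((hE1 f).1 hf).1
  have k1 := h1 hN B hBs
  have k2 := h2 hN B hB E hE1
  have k3 := h3 hN B hBs
  have k4 : (N : ℝ) ≤ 72 * E.card := by exact_mod_cast hcard h5
  have k5 : (E.card : ℝ) ≤ C * N := le_trans (by exact_mod_cast Finset.card_le_card hEB) k3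
  have hE0 : (0 : ℝ) < E.card := by linarith
  have hHc : (H N).ncard = E.card := by rw [hE, Set.ncard_coe_finset]
  have hfin : (H N).Finite := by rw [hE]; exact E.finite_toSet
  have he : C + 72 ≤ Real.exp (ε / 2 * ll N) := by
    have := Real.add_one_le_exp (ε / 2 * ll N)
    linarith
  set r : ℝ := -((1 / 2 - A) ^ 2 / 2) with hr
  refine ⟨?_, ?_, ?_⟩
  · unfold pA
    rw [hHc, le_div_iff₀ hE0]
    have e1 : ((E.filter fun f => Real.exp (-A * ll N) < (bv f 0).re : Finset (S2 N)) : Set (S2 N)) ⊆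
        {f ∈ H N | Real.log N ^ (-A) < cv f} := by
      intro f hf
      rw [Finset.mem_coe, Finset.mem_filter] at hf
      have hf1 := ((hE1 f).1 hf.1).2
      refine ⟨hf1, ?_⟩
      rw [rpow_ll hL, ← re_cv hf1]
      exact hf.2
    have e2 := Set.ncard_le_ncard e1 (hfin.subset fun f hf => hf.1)
    rw [Set.ncard_coe_finset] at e2
    have e3 : ((E.filter fun f => Real.exp (-A * ll N) < (bv f 0).re).card : ℝ) ≤
        (({f ∈ H N | Real.log N ^ (-A) < cv f}.ncard : ℕ) : ℝ) := by exact_mod_cast e2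
    refine le_trans ?_ (k2.trans e3)
    calc Real.exp ((r - ε) * ll N) * E.card ≤ Real.exp ((r - ε) * ll N) * (C * N) :=
          mul_le_mul_of_nonneg_left k5 (Real.exp_pos _).le
      _ = N * (C * Real.exp ((r - ε) * ll N)) := by ring
      _ ≤ N * (Real.exp (ε / 2 * ll N) * Real.exp ((r - ε) * ll N)) :=
          mul_le_mul_of_nonneg_left (mul_le_mul_of_nonneg_right (by linarith) (Real.exp_pos _).le) hN0.le
      _ = _ := by
        rw [← Real.exp_add]
        congr 2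
        ring
  · unfold pA qA
    refine div_le_div_of_nonneg_right ?_ (Nat.cast_nonneg _)
    have e1 : {f ∈ H N | Real.log N ^ (-A) < cv f} ⊆ {f ∈ H N | Real.log N ^ (-A) < |cv f|} :=
      fun f hf => ⟨hf.1, hf.2.trans_le (le_abs_self _)⟩
    exact_mod_cast Set.ncard_le_ncard e1 (hfin.subset fun f hf => hf.1)
  · unfold qA
    rw [hHc, div_le_iff₀ hE0]
    have e1 : {f ∈ H N | Real.log N ^ (-A) < |cv f|} ⊆
        ((B.filter fun f => Real.exp (-A * ll N) < ‖bv f 0‖ : Finset (S2 N)) : Set (S2 N)) := by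
      intro f hf
      have hf1 : W388.IsNewf N 2 f 1 := hf.1
      rw [Finset.mem_coe, Finset.mem_filter]
      refine ⟨hEB ?_, ?_⟩
      · have : f ∈ (E : Set (S2 N)) := by rw [← hE]; exact hf.1
        exact this
      · rw [← norm_cv hf1, ← rpow_ll hL]
        exact hf.2
    have e2 := Set.ncard_le_ncard e1 (Finset.finite_toSet _)
    rw [Set.ncard_coe_finset] at e2
    have e3 : (({f ∈ H N | Real.log N ^ (-A) < |cv f|}.ncard : ℕ) : ℝ) ≤
        ((B.filter fun f => Real.exp (-A * ll N) < ‖bv f 0‖).card : ℝ) := by exact_mod_cast e2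
    refine e3.trans (k1.trans ?_)
    calc N * Real.exp ((r + ε / 2) * ll N) ≤ (72 * E.card) * Real.exp ((r + ε / 2) * ll N) :=
          mul_le_mul_of_nonneg_right k4 (Real.exp_pos _).le
      _ = (72 * Real.exp ((r + ε / 2) * ll N)) * E.card := by ring
      _ ≤ (Real.exp (ε / 2 * ll N) * Real.exp ((r + ε / 2) * ll N)) * E.card :=
          mul_le_mul_of_nonneg_right (mul_le_mul_of_nonneg_right (by linarith) (Real.exp_pos _).le) hE0.le
      _ = _ := by
        rw [← Real.exp_add]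
        congr 2
        ring

/-- the two-sided bound for the harmonic weights -/
theorem har_both {A : ℝ} (hA1 : -(3 / 2) < A) (hA2 : A < 1 / 2) {ε : ℝ} (hε : 0 < ε) :
    ∀ᶠ N in primes, Real.exp ((-((1 / 2 - A) ^ 2 / 2) - ε) * ll N) ≤ hA A N ∧
      hA A N ≤ Real.exp ((-((1 / 2 - A) ^ 2 / 2) + ε) * ll N) := by
  classical
  apply ev_primes
  filter_upwards [har_main hA1.le hA2 hε, har_low_cv hA1 hA2 hε, ev_log 1] with N h1 h2 h3 hN
  have : NeZero N := ⟨hN.ne_zero⟩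
  have hL : 0 < Real.log N := by linarith
  obtain ⟨B, E, hE, hB, hE1, hBs, -⟩ := setup hN
  have hEB : E ⊆ B := fun f hf => ((hE1 f).1 hf).1
  have hset : {f ∈ H N | Real.log N ^ (-A) < cv f} =
      ((E.filter fun f => Real.exp (-A * ll N) < (bv f 0).re : Finset (S2 N)) : Set (S2 N)) := by
    ext f
    rw [hE, Finset.coe_filter]
    constructor
    · intro hf
      have h1 := ((hE1 f).1 hf.1).2
      exact ⟨hf.1, by rw [re_cv h1, ← rpow_ll hL]; exact hf.2⟩
    · intro hf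
      have h1 := ((hE1 f).1 hf.1).2
      exact ⟨hf.1, by rw [← re_cv h1, rpow_ll hL]; exact hf.2⟩
  have e0 : hA A N = ∑ f ∈ E with Real.exp (-A * ll N) < (bv f 0).re, W388.LV.om f := by
    unfold hA
    rw [hset, finsum_mem_coe_finset]
    exact Finset.sum_congr rfl fun f _ => w_eq f
  rw [e0]
  refine ⟨h2 hN B hB E hE1, le_trans ?_ (h1 hN B hBs)⟩
  refine Finset.sum_le_sum_of_subset_of_nonneg ?_ fun f _ _ => om_nonneg f
  intro f hf
  rw [Finset.mem_filter] at hf ⊢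
  exact ⟨hEB hf.1, hf.2.trans_le (Complex.re_le_norm _)⟩

theorem limit_zero {A : ℝ} (hA : A < 1 / 2) : Tendsto (pA A) primes (𝓝 0) := by
  obtain ⟨A', hA'⟩ : ∃ A' : ℝ, A' = max A 0 := ⟨_, rfl⟩
  have a1 : 0 ≤ A' := by rw [hA']; exact le_max_right _ _
  have a2 : A' < 1 / 2 := by rw [hA']; exact max_lt hA (by norm_num)
  have a3 : A ≤ A' := by rw [hA']; exact le_max_left _ _
  obtain ⟨η, hη⟩ : ∃ η : ℝ, η = (1 / 2 - A') ^ 2 / 4 := ⟨_, rfl⟩
  have hη0 : 0 < η := by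
    have : 0 < 1 / 2 - A' := by linarith
    rw [hη]
    positivity
  have h1 := nat_both (by linarith : -(1 / 2) < A') a2 hη0
  have hup : Tendsto (fun N : ℕ => Real.exp (-η * ll N)) primes (𝓝 0) := by
    have h2 : Tendsto (fun N : ℕ => Real.exp (-η * ll N)) atTop (𝓝 0) := by
      apply Real.tendsto_exp_atBot.comp
      exact tendsto_ll.const_mul_atTop_of_neg (by linarith)
    exact h2.mono_left inf_le_left
  refine squeeze_zero' (Eventually.of_forall fun N => ?_) ?_ hup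
  · unfold pA
    positivity
  · have h3 : ∀ᶠ N : ℕ in primes, 1 ≤ Real.log (N : ℝ) := (ev_log 1).filter_mono inf_le_left
    have h4 : ∀ᶠ N in primes, N.Prime := by
      apply ev_primes
      exact Eventually.of_forall fun N h => h
    filter_upwards [h1, h3, h4] with N k1 k2 k3
    have : NeZero N := ⟨k3.ne_zero⟩
    obtain ⟨B, E, hE, -⟩ := setup k3
    have hfin : (H N).Finite := by rw [hE]; exact E.finite_toSet
    have k4 : pA A N ≤ pA A' N := by
      unfold pA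
      refine div_le_div_of_nonneg_right ?_ (Nat.cast_nonneg _)
      have e1 : {f ∈ H N | Real.log N ^ (-A) < cv f} ⊆ {f ∈ H N | Real.log N ^ (-A') < cv f} := by
        intro f hf
        refine ⟨hf.1, lt_of_le_of_lt ?_ hf.2⟩
        exact Real.rpow_le_rpow_of_exponent_le k2 (by linarith)
      exact_mod_cast Set.ncard_le_ncard e1 (hfin.subset fun f hf => hf.1)
    refine k4.trans (k1.2.1.trans (k1.2.2.trans (le_of_eq ?_)))
    congr 1
    rw [hη]
    ring

theorem mono_set {N : ℕ} (h : 1 ≤ Real.log N) {A A' : ℝ} (hA : A ≤ A') :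
    Real.log N ^ (-A') ≤ Real.log N ^ (-A) :=
  Real.rpow_le_rpow_of_exponent_le h (by linarith)

theorem fin {N : ℕ} (hN : N.Prime) : (H N).Finite := by
  have : NeZero N := ⟨hN.ne_zero⟩
  obtain ⟨B, E, hE, -⟩ := setup hN
  rw [hE]
  exact E.finite_toSet

theorem mono_log {x : ℝ → ℝ} {A0 l : ℝ} (hl : 0 < l) (h0 : 0 < x A0)
    (hx : ∀ A A' : ℝ, A0 ≤ A → A ≤ A' → x A ≤ x A') :
    MonotoneOn (fun A => Real.log (x A) / l) (Ici A0) := by
  intro A hA A' _ hAA'
  have h1 : 0 < x A := lt_of_lt_of_le h0 (hx A0 A le_rfl hA)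
  exact div_le_div_of_nonneg_right (Real.log_le_log h1 (hx A A' hA hAA')) hl.le

theorem pA_mono {N : ℕ} (hN : N.Prime) (h : 1 ≤ Real.log N) {A A' : ℝ} (hA : A ≤ A') : pA A N ≤ pA A' N := by
  unfold pA
  refine div_le_div_of_nonneg_right ?_ (Nat.cast_nonneg _)
  have e1 : {f ∈ H N | Real.log N ^ (-A) < cv f} ⊆ {f ∈ H N | Real.log N ^ (-A') < cv f} :=
    fun f hf => ⟨hf.1, (mono_set h hA).trans_lt hf.2⟩
  exact_mod_cast Set.ncard_le_ncard e1 ((fin hN).subset fun f hf => hf.1)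

theorem qA_mono {N : ℕ} (hN : N.Prime) (h : 1 ≤ Real.log N) {A A' : ℝ} (hA : A ≤ A') : qA A N ≤ qA A' N := by
  unfold qA
  refine div_le_div_of_nonneg_right ?_ (Nat.cast_nonneg _)
  have e1 : {f ∈ H N | Real.log N ^ (-A) < |cv f|} ⊆ {f ∈ H N | Real.log N ^ (-A') < |cv f|} :=
    fun f hf => ⟨hf.1, (mono_set h hA).trans_lt hf.2⟩
  exact_mod_cast Set.ncard_le_ncard e1 ((fin hN).subset fun f hf => hf.1)

theorem sub_le_one {N : ℕ} (hN : N.Prime) (p : S2 N → Prop) :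
    (({f ∈ H N | p f}.ncard : ℕ) : ℝ) / (((H N).ncard : ℕ) : ℝ) ≤ 1 := by
  apply div_le_one_of_le₀ _ (Nat.cast_nonneg _)
  have e1 : {f ∈ H N | p f} ⊆ H N := fun f hf => hf.1
  exact_mod_cast Set.ncard_le_ncard e1 (fin hN)

theorem hA_mono {N : ℕ} (hN : N.Prime) (h : 1 ≤ Real.log N) {A A' : ℝ} (hAA : A ≤ A') : hA A N ≤ hA A' N := by
  have : NeZero N := ⟨hN.ne_zero⟩
  have hf1 : {f ∈ H N | Real.log N ^ (-A) < cv f}.Finite := (fin hN).subset fun f hf => hf.1
  have hf2 : {f ∈ H N | Real.log N ^ (-A') < cv f}.Finite := (fin hN).subset fun f hf => hf.1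
  have e1 : {f ∈ H N | Real.log N ^ (-A) < cv f} ⊆ {f ∈ H N | Real.log N ^ (-A') < cv f} :=
    fun f hf => ⟨hf.1, (mono_set h hAA).trans_lt hf.2⟩
  unfold hA
  rw [finsum_mem_eq_finite_toFinset_sum _ hf1, finsum_mem_eq_finite_toFinset_sum _ hf2]
  refine Finset.sum_le_sum_of_subset_of_nonneg ?_ fun f _ _ => ?_
  · intro f hf
    rw [Set.Finite.mem_toFinset] at hf ⊢
    exact e1 hf
  · rw [w_eq]
    exact om_nonneg f

theorem hA_le : ∀ᶠ N in primes, ∀ A : ℝ, hA A N ≤ 2 := by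
  classical
  obtain ⟨N0, hN0⟩ := ls_obs 2 le_rfl 1 (1 / 8) one_pos (by norm_num) (by norm_num)
  apply ev_primes
  filter_upwards [eventually_ge_atTop N0] with N h0 hN A
  have : NeZero N := ⟨hN.ne_zero⟩
  obtain ⟨B, E, hE, hB, hE1, hBs, -⟩ := setup hN
  have hEB : E ⊆ B := fun f hf => ((hE1 f).1 hf).1
  have h1 := hN0 N h0 B hBs ∅ (by simp) (by simp) 1 (fun _ => 1) (Obs.const le_rfl 1)
    (Real.one_le_rpow (by exact_mod_cast hN.one_le) (by norm_num))
  simp only [one_pow, mul_one, MeasureTheory.integral_const, smul_eq_mul, MeasureTheory.probReal_univ] at h1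
  have hf1 : {f ∈ H N | Real.log N ^ (-A) < cv f}.Finite := (fin hN).subset fun f hf => hf.1
  unfold hA
  rw [finsum_mem_eq_finite_toFinset_sum _ hf1]
  calc ∑ f ∈ hf1.toFinset, w f = ∑ f ∈ hf1.toFinset, W388.LV.om f := Finset.sum_congr rfl fun f _ => w_eq f
    _ ≤ ∑ f ∈ B, W388.LV.om f := by
        refine Finset.sum_le_sum_of_subset_of_nonneg (fun f hf => ?_) fun f _ _ => om_nonneg f
        rw [Set.Finite.mem_toFinset] at hf
        have h2 : f ∈ (E : Set (S2 N)) := by rw [← hE]; exact hf.1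
        exact hEB h2
    _ ≤ 2 := by linarith

theorem ev_base : ∀ᶠ N : ℕ in primes, N.Prime ∧ 1 ≤ Real.log N ∧ 0 < ll N := by
  apply ev_primes
  filter_upwards [ev_log 1, ev_ll 1] with N h1 h2 hN
  exact ⟨hN, h1, by linarith⟩

theorem result :
    (∀ N : ℕ, N.Prime → (H N).Finite ∧
      ∀ f ∈ H N, 0 < w f ∧ ∃ L : ℂ → ℂ, IsLfun f L ∧ L (1 / 2) = (cv f : ℂ)) ∧
    (∀ δ : ℝ, 0 < δ → TendstoUniformlyOn
      (fun (N : ℕ) (A : ℝ) => Real.log (pA A N) / Real.log (Real.log N)) G primes (Ici (-(1 / 2) + δ))) ∧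
    (∀ δ : ℝ, 0 < δ → TendstoUniformlyOn
      (fun (N : ℕ) (A : ℝ) => Real.log (qA A N) / Real.log (Real.log N)) G primes (Ici (-(1 / 2) + δ))) ∧
    (∀ δ : ℝ, 0 < δ → TendstoUniformlyOn
      (fun (N : ℕ) (A : ℝ) => Real.log (hA A N) / Real.log (Real.log N)) G primes (Ici (-(3 / 2) + δ))) ∧
    (∀ A : ℝ, A < 1 / 2 → Tendsto (pA A) primes (𝓝 0)) := by
  refine ⟨fun N hN => ?_, fun δ hδ => ?_, fun δ hδ => ?_, fun δ hδ => ?_, fun A hA => limit_zero hA⟩
  · have : NeZero N := ⟨hN.ne_zero⟩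
    obtain ⟨B, E, hE, hB, hE1, -, -⟩ := setup hN
    exact ⟨by rw [hE]; exact E.finite_toSet, fun f hf => ⟨w_pos hf, lfun hf⟩⟩
  · refine Pool.Agent.H485.Uni.unif (by norm_num) (by norm_num) (fun A0 h1 h2 => ?_) (fun ε hε => ?_) (fun A hA1 hA2 => ?_) hδ
    · filter_upwards [nat_both h1 h2 one_pos, ev_base] with N k1 k2
      exact mono_log k2.2.2 ((Real.exp_pos _).trans_le k1.1) fun A A' _ h => pA_mono k2.1 k2.2.1 h
    · filter_upwards [ev_base] with N k2 A
      have h1 : Real.log (pA A N) ≤ 0 :=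
        Real.log_nonpos (div_nonneg (Nat.cast_nonneg _) (Nat.cast_nonneg _)) (sub_le_one k2.1 _)
      exact (div_nonpos_of_nonpos_of_nonneg h1 k2.2.2.le).trans hε.le
    · exact tends fun ε hε => (nat_both hA1 hA2 hε).mono fun N h => ⟨h.1, h.2.1.trans h.2.2⟩
  · refine Pool.Agent.H485.Uni.unif (by norm_num) (by norm_num) (fun A0 h1 h2 => ?_) (fun ε hε => ?_) (fun A hA1 hA2 => ?_) hδ
    · filter_upwards [nat_both h1 h2 one_pos, ev_base] with N k1 k2
      exact mono_log k2.2.2 ((Real.exp_pos _).trans_le (k1.1.trans k1.2.1)) fun A A' _ h => qA_mono k2.1 k2.2.1 h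
    · filter_upwards [ev_base] with N k2 A
      have h1 : Real.log (qA A N) ≤ 0 :=
        Real.log_nonpos (div_nonneg (Nat.cast_nonneg _) (Nat.cast_nonneg _)) (sub_le_one k2.1 _)
      exact (div_nonpos_of_nonpos_of_nonneg h1 k2.2.2.le).trans hε.le
    · exact tends fun ε hε => (nat_both hA1 hA2 hε).mono fun N h => ⟨h.1.trans h.2.1, h.2.2⟩
  · refine Pool.Agent.H485.Uni.unif (by norm_num) le_rfl (fun A0 h1 h2 => ?_) (fun ε hε => ?_) (fun A hA1 hA2 => ?_) hδ
    · filter_upwards [har_both h1 h2 one_pos, ev_base] with N k1 k2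
      exact mono_log k2.2.2 ((Real.exp_pos _).trans_le k1.1) fun A A' _ h => hA_mono k2.1 k2.2.1 h
    · have h3 : ∀ᶠ N : ℕ in primes, Real.log 2 ≤ ε * ll N := (ev_lin (Real.log 2) hε).filter_mono inf_le_left
      filter_upwards [ev_base, hA_le, h3] with N k2 k3 k4 A
      have e1 : Real.log (Real.log N) = ll N := rfl
      rw [e1, div_le_iff₀ k2.2.2]
      refine le_trans ?_ k4
      have := k3 A
      rcases le_or_gt (hA A N) 0 with h | h
      · have e2 : Real.log (hA A N) ≤ 0 := by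
          have h0 : 0 ≤ hA A N := by
            unfold hA
            apply finsum_nonneg
            intro f
            apply finsum_nonneg
            intro _
            have : NeZero N := ⟨k2.1.ne_zero⟩
            rw [w_eq]
            exact om_nonneg f
          rw [le_antisymm h h0, Real.log_zero]
        exact e2.trans (Real.log_nonneg (by norm_num))
      · exact Real.log_le_log h this
    · exact tends fun ε hε => har_both hA1 hA2 hε

end Pool.Agent.Results.MP_cc4f83_nt.DecayRate
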