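import Pool.Agent.H485.CC.Ep10

/-!
# Every interval of the Keating–Snaith scale contains a positive proportion of the central values
-/

set_option autoImplicit false

open Filter Topology Set UpperHalfPlane MatrixGroups CongruenceSubgroup

namespace Pool.Agent.Results.MP_cc4f83_nt.EveryInterval

/-- the cusp forms of weight 2 for `Γ₀(N)` -/
abbrev S2 (N : ℕ) : Type := CuspForm (Gamma0 N : Subgroup (GL (Fin 2) ℝ)) 2

/-- `H₂⁺(N)`, the even newforms: `a(1) = 1`, real coefficients, Hecke relations, and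
`f(-1/(Nz)) = - N z² f(z)` (see `W388.IsNewf`; root number `+1`) -/
def H (N : ℕ) : Set (S2 N) := {f | W388.IsNewf N 2 f 1}

/-- `L` is the L-function of `f`: the entire continuation of `∑ λ_f(n) n^(-s)`, where
`λ_f(n) = a(n) n^(-1/2)` -/
def IsLfun {N : ℕ} (f : S2 N) (L : ℂ → ℂ) : Prop :=
  Differentiable ℂ L ∧ ∀ s : ℂ, 3 < s.re → L s = ∑' n : ℕ, (W388.lamf f n : ℂ) * (n : ℂ) ^ (-s)

open Classical in
/-- the central value `L(1/2, f)` -/
noncomputable def cv {N : ℕ} (f : S2 N) : ℝ :=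
  if h : ∃ L : ℂ → ℂ, IsLfun f L then (h.choose (1 / 2)).re else 0

/-- the harmonic weight `1 / (4π⟨f, f⟩)`, where `⟨f, f⟩` is the integral of `|f|²` over
`Γ₀(N)∖ℍ` (with `y² dμ = dx dy`) -/
noncomputable def w {N : ℕ} (f : S2 N) : ℝ := 1 / (4 * Real.pi * (W388.LV.pet N 2 f f).re)

/-- the filter of the primes `N → ∞` -/
def primes : Filter ℕ := atTop ⊓ 𝓟 {N : ℕ | N.Prime}

/-- the proportion `p_A(N)` of the even newforms with `L(1/2, f) > (log N)^(-A)` -/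
noncomputable def pA (A : ℝ) (N : ℕ) : ℝ :=
  (({f ∈ H N | Real.log N ^ (-A) < cv f}.ncard : ℕ) : ℝ) / (((H N).ncard : ℕ) : ℝ)

/-- the number `(log N)^(-1/2) exp (v √(log log N))` -/
noncomputable def thr (v : ℝ) (N : ℕ) : ℝ :=
  Real.log N ^ (-(1 / 2) : ℝ) * Real.exp (v * Real.sqrt (Real.log (Real.log N)))

/-- the even newforms with `L(1/2, f)` between `(log N)^(-1/2) exp (a √(log log N))` and
`(log N)^(-1/2) exp (b √(log log N))` -/
def ival (a b : ℝ) (N : ℕ) : Set (S2 N) := {f ∈ H N | thr a N < cv f ∧ cv f < thr b N}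

/-- the probability that a standard Gaussian variable lies in `(a, b)` -/
noncomputable def gauss (a b : ℝ) : ℝ := (ProbabilityTheory.gaussianReal 0 1).real (Set.Ioo a b)

open Pool.Agent.K4H13.CV Pool.Agent.Y18.BSD Pool.Agent.H485.CC

theorem lfun {N : ℕ} [NeZero N] {f : S2 N} {ε : ℝ} (hf : W388.IsNewf N 2 f ε) :
    ∃ L : ℂ → ℂ, IsLfun f L ∧ L (1 / 2) = (cv f : ℂ) := by
  obtain ⟨L, hL, -⟩ := exists_IsL hf
  have h : ∃ L : ℂ → ℂ, IsLfun f L := ⟨L, hL.diff, hL.eq⟩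
  have h1 : cv f = (h.choose (1 / 2)).re := by
    unfold cv
    rw [dif_pos h]
  have h2 : h.choose (1 / 2) = bv f 0 := lv_eq hf ⟨h.choose_spec.1, h.choose_spec.2⟩
  refine ⟨h.choose, h.choose_spec, ?_⟩
  rw [h1, h2]
  exact (bv_zero_real hf).symm

theorem cv_eq {N : ℕ} [NeZero N] {f : S2 N} {ε : ℝ} (hf : W388.IsNewf N 2 f ε) :
    (cv f : ℂ) = bv f 0 := by
  obtain ⟨L, hL, h⟩ := lfun hf
  rw [← h]
  exact lv_eq hf ⟨hL.1, hL.2⟩

theorem re_cv {N : ℕ} [NeZero N] {f : S2 N} {ε : ℝ} (hf : W388.IsNewf N 2 f ε) :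
    (bv f 0).re = cv f := by
  rw [← cv_eq hf, Complex.ofReal_re]

theorem norm_cv {N : ℕ} [NeZero N] {f : S2 N} {ε : ℝ} (hf : W388.IsNewf N 2 f ε) :
    |cv f| = ‖bv f 0‖ := by
  rw [← cv_eq hf, Complex.norm_real, Real.norm_eq_abs]

theorem ev_primes {P : ℕ → Prop} (h : ∀ᶠ N : ℕ in atTop, N.Prime → P N) : ∀ᶠ N in primes, P N := by
  unfold primes
  rw [eventually_inf_principal]
  exact h

theorem w_eq {N : ℕ} (f : S2 N) : w f = W388.LV.om f := by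
  unfold w W388.LV.om W388.LV.ck
  norm_num [Real.Gamma_one]
  ring

theorem w_pos {N : ℕ} [NeZero N] {f : S2 N} {ε : ℝ} (hf : W388.IsNewf N 2 f ε) : 0 < w f := by
  have h1 : 0 < (W388.LV.pet N 2 f f).re := by
    apply ((W388.LV.q_pet N 2).2.2.2 f).2.2
    intro h0
    have h1 : W388.LV.bf f 1 = 1 := hf.one
    rw [h0, Pool.Agent.W347.LV.bf_zero] at h1
    exact zero_ne_one h1
  unfold w
  have := Real.pi_pos
  positivity

theorem thr_eq {N : ℕ} (h : 0 < Real.log N) (v : ℝ) : thr v N = Real.exp (-(ll N / 2) + v * sl N) := by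
  unfold thr
  rw [Real.rpow_def_of_pos h, ← Real.exp_add]
  congr 1
  unfold sl ll
  ring

/-- the setting at a prime level -/
theorem setup {N : ℕ} (hN : N.Prime) [NeZero N] : ∃ B E : Finset (S2 N), (H N = (E : Set (S2 N))) ∧
    W388.LV.IsNewBasis N 2 B ∧ (∀ f, f ∈ E ↔ f ∈ B ∧ W388.IsNewf N 2 f 1) ∧
    W388.LV.IsNewSet N 2 E := by
  classical
  obtain ⟨B, hB, hBm⟩ := newform_basis N hN
  refine ⟨B, B.filter fun f => W388.IsNewf N 2 f 1, ?_, hB, fun f => Finset.mem_filter, ?_⟩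
  · ext f
    rw [Finset.mem_coe, Finset.mem_filter, hBm]
    exact ⟨fun h => ⟨⟨1, h⟩, h⟩, fun h => h.2⟩
  · exact IsNewSet.sub ⟨hB.newf, hB.orth⟩ (Finset.filter_subset _ _)

theorem set_eq {N : ℕ} [NeZero N] {B E : Finset (S2 N)} (hE : H N = (E : Set (S2 N)))
    (hE1 : ∀ f, f ∈ E ↔ f ∈ B ∧ W388.IsNewf N 2 f 1) (p : ℝ → Prop) [DecidablePred p] :
    {f ∈ H N | p (cv f)} = ((E.filter fun f => p (bv f 0).re : Finset (S2 N)) : Set (S2 N)) := by
  ext f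
  rw [hE, Finset.coe_filter]
  constructor
  · intro hf
    have h1 := ((hE1 f).1 hf.1).2
    exact ⟨hf.1, by rw [re_cv h1]; exact hf.2⟩
  · intro hf
    have h1 := ((hE1 f).1 hf.1).2
    exact ⟨hf.1, by rw [← re_cv h1]; exact hf.2⟩

theorem ival_eq {N : ℕ} [NeZero N] {B E : Finset (S2 N)} (hE : H N = (E : Set (S2 N)))
    (hE1 : ∀ f, f ∈ E ↔ f ∈ B ∧ W388.IsNewf N 2 f 1) (hL : 0 < Real.log N) (a b : ℝ) :
    ival a b N = ((E.filter fun f => Real.exp (-(ll N / 2) + a * sl N) < (bv f 0).re ∧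
      (bv f 0).re < Real.exp (-(ll N / 2) + b * sl N) : Finset (S2 N)) : Set (S2 N)) := by
  classical
  have h : ival a b N = ((E.filter fun f => thr a N < (bv f 0).re ∧ (bv f 0).re < thr b N : Finset (S2 N)) :
      Set (S2 N)) := set_eq hE hE1 (fun x => thr a N < x ∧ x < thr b N)
  rw [h, thr_eq hL, thr_eq hL]

theorem har : ∃ κ : ℝ, 0 < κ ∧ ∀ a b : ℝ, a < b → ∀ᶠ N in primes,
    κ * gauss a b ^ 2 ≤ ∑ᶠ f ∈ ival a b N, w f := by
  classical
  obtain ⟨κ, hκ, h⟩ := har_int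
  refine ⟨κ, hκ, fun a b hab => ev_primes ?_⟩
  filter_upwards [h a b hab, ev_log 1] with N h1 h2 hN
  have : NeZero N := ⟨hN.ne_zero⟩
  obtain ⟨B, E, hE, hB, hE1, hE2⟩ := setup hN
  have hL : 0 < Real.log N := by linarith
  rw [ival_eq hE hE1 hL, finsum_mem_coe_finset]
  simp only [w_eq]
  exact h1 hN B hB E hE1

theorem nat (a b : ℝ) (hab : a < b) : ∃ c : ℝ, 0 < c ∧ ∀ᶠ N in primes,
    c * (((H N).ncard : ℕ) : ℝ) ≤ (((ival a b N).ncard : ℕ) : ℝ) := by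
  classical
  obtain ⟨c, hc, h⟩ := count_int a b hab
  refine ⟨c, hc, ev_primes ?_⟩
  filter_upwards [h, ev_log 1] with N h1 h2 hN
  have : NeZero N := ⟨hN.ne_zero⟩
  obtain ⟨B, E, hE, hB, hE1, hE2⟩ := setup hN
  have hL : 0 < Real.log N := by linarith
  rw [ival_eq hE hE1 hL, Set.ncard_coe_finset, hE, Set.ncard_coe_finset]
  exact h1 hN B hB E hE1

theorem prop : ∃ c : ℝ, 0 < c ∧ ∀ᶠ N in primes, ∀ A : ℝ, 1 / 2 ≤ A → c ≤ pA A N := by
  classical
  obtain ⟨c, hc, h⟩ := nat 0 1 one_pos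
  refine ⟨c, hc, ?_⟩
  have hev : ∀ᶠ N : ℕ in primes, N.Prime ∧ 1 ≤ Real.log N ∧ 130 ≤ N := by
    apply ev_primes
    filter_upwards [ev_log 1, eventually_ge_atTop 130] with N h1 h3 hN
    exact ⟨hN, h1, h3⟩
  filter_upwards [h, hev] with N h1 h2 A hA
  obtain ⟨hN, hlog, h130⟩ := h2
  have : NeZero N := ⟨hN.ne_zero⟩
  obtain ⟨B, E, hE, hB, hE1, hE2⟩ := setup hN
  have hL : 0 < Real.log N := by linarith
  obtain ⟨B', hB', hBm'⟩ := newform_basis N hN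
  have hcard : 0 < E.card := by
    have h4 := even_card hN (by omega) hB' hBm'
    have e1 : B'.filter (fun f => W388.IsNewf N 2 f 1) = E := by
      ext f
      rw [Finset.mem_filter, hBm']
      have h5 : f ∈ (E : Set (S2 N)) ↔ W388.IsNewf N 2 f 1 := by rw [← hE]; rfl
      rw [← Finset.mem_coe, h5]
      exact ⟨fun h => h.2, fun h => ⟨⟨1, h⟩, h⟩⟩
    rw [e1] at h4
    omega
  unfold pA
  rw [le_div_iff₀ (by rw [hE, Set.ncard_coe_finset]; exact_mod_cast hcard)]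
  refine h1.trans ?_
  have hfin : (H N).Finite := by rw [hE]; exact E.finite_toSet
  have hle : Real.log N ^ (-A) ≤ thr 0 N := by
    unfold thr
    rw [zero_mul, Real.exp_zero, mul_one]
    exact Real.rpow_le_rpow_of_exponent_le hlog (by linarith)
  have hsub : ival 0 1 N ⊆ {f ∈ H N | Real.log N ^ (-A) < cv f} :=
    fun f hf => ⟨hf.1, lt_of_le_of_lt hle hf.2.1⟩
  exact_mod_cast Set.ncard_le_ncard hsub (hfin.subset fun f hf => hf.1)

theorem mass : Tendsto (fun N => ∑ᶠ f ∈ H N, w f) primes (𝓝 (1 / 2)) := by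
  rw [Metric.tendsto_nhds]
  intro ε hε
  apply ev_primes
  filter_upwards [obs_even (ε / 2) (1 / 4) (by positivity) (by norm_num), eventually_ge_atTop 1]
    with N h1 h2 hN
  have : NeZero N := ⟨hN.ne_zero⟩
  obtain ⟨B, E, hE, hB, hE1, hE2⟩ := setup hN
  rw [hE, finsum_mem_coe_finset]
  simp only [w_eq]
  have k := h1 hN B hB E hE1 ∅ (by simp) (by simp) 1 (fun _ => 1) (Obs.const le_rfl 1)
      (Real.one_le_rpow (by exact_mod_cast h2) (by norm_num))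
  simp only [one_pow, mul_one, MeasureTheory.integral_const, MeasureTheory.probReal_univ, smul_eq_mul,
    Real.sqrt_one] at k
  rw [Real.dist_eq]
  linarith

theorem result :
    (∀ N : ℕ, N.Prime → (H N).Finite ∧
      ∀ f ∈ H N, 0 < w f ∧ ∃ L : ℂ → ℂ, IsLfun f L ∧ L (1 / 2) = (cv f : ℂ)) ∧
    (∀ a b : ℝ, a < b → 0 < gauss a b ∧ ∃ c : ℝ, 0 < c ∧ ∀ᶠ N in primes,
      c * (((H N).ncard : ℕ) : ℝ) ≤ (((ival a b N).ncard : ℕ) : ℝ)) ∧
    (∃ c : ℝ, 0 < c ∧ ∀ᶠ N in primes, ∀ A : ℝ, 1 / 2 ≤ A → c ≤ pA A N) ∧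
    (∃ κ : ℝ, 0 < κ ∧ ∀ a b : ℝ, a < b → ∀ᶠ N in primes,
      κ * gauss a b ^ 2 ≤ ∑ᶠ f ∈ ival a b N, w f) ∧
    Tendsto (fun N => ∑ᶠ f ∈ H N, w f) primes (𝓝 (1 / 2)) := by
  refine ⟨fun N hN => ?_, fun a b hab => ⟨GI_pos hab, nat a b hab⟩, prop, har, mass⟩
  have : NeZero N := ⟨hN.ne_zero⟩
  obtain ⟨B, E, hE, hB, hE1, -⟩ := setup hN
  refine ⟨by rw [hE]; exact E.finite_toSet, fun f hf => ⟨w_pos hf, lfun hf⟩⟩

end Pool.Agent.Results.MP_cc4f83_nt.EveryInterval
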