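import Pool.Agent.H485.CC.Nv13

/-!
# At most half of the even weight-two newforms of prime level have `|L(1/2,f)| > (log N)^(-1/2)`
-/

set_option autoImplicit false

open Filter Topology Set UpperHalfPlane MatrixGroups CongruenceSubgroup ProbabilityTheory

namespace Pool.Agent.Results.MP_cc4f83_nt.NaturalCLT

/-- the cusp forms of weight 2 for `Γ₀(N)` -/
abbrev S2 (N : ℕ) : Type := CuspForm (Gamma0 N : Subgroup (GL (Fin 2) ℝ)) 2

/-- `H₂⁺(N)`, the even newforms: `a(1) = 1`, real coefficients, Hecke relations, and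
`f(-1/(Nz)) = - N z² f(z)` (see `W388.IsNewf`; root number `+1`) -/
def H (N : ℕ) : Set (S2 N) := {f | W388.IsNewf N 2 f 1}

/-- `L` is the L-function of `f`: the entire continuation of `∑ λ_f(n) n^(-s)`, where
`λ_f(n) = a(n) n^(-1/2)` -/
def IsLfun {N : ℕ} (f : S2 N) (L : ℂ → ℂ) : Prop :=
  Differentiable ℂ L ∧ ∀ s : ℂ, 3 < s.re → L s = ∑' n : ℕ, (W388.lamf f n : ℂ) * (n : ℂ) ^ (-s)

open Classical in
/-- the central value `L(1/2, f)` -/
noncomputable def cv {N : ℕ} (f : S2 N) : ℝ :=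
  if h : ∃ L : ℂ → ℂ, IsLfun f L then (h.choose (1 / 2)).re else 0

/-- the harmonic weight `1 / (4π⟨f, f⟩)`, where `⟨f, f⟩` is the integral of `|f|²` over
`Γ₀(N)∖ℍ` (with `y² dμ = dx dy`) -/
noncomputable def w {N : ℕ} (f : S2 N) : ℝ := 1 / (4 * Real.pi * (W388.LV.pet N 2 f f).re)

/-- the filter of the primes `N → ∞` -/
def primes : Filter ℕ := atTop ⊓ 𝓟 {N : ℕ | N.Prime}

/-- `p_A(N)`, the proportion of the `f ∈ H₂⁺(N)` with `L(1/2, f) > (log N)^(-A)` -/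
noncomputable def pA (A : ℝ) (N : ℕ) : ℝ :=
  (({f ∈ H N | Real.log N ^ (-A) < cv f}).ncard : ℝ) / ((H N).ncard : ℝ)

/-- the probability that a standard Gaussian variable exceeds `v` -/
noncomputable def tail (v : ℝ) : ℝ := (gaussianReal 0 1).real (Ioi v)

/-- the even newforms of level `N` with
`|L(1/2, f)| > (log N)^(-1/2) exp (v √(log log N))` -/
def big (v : ℝ) (N : ℕ) : Set (S2 N) :=
  {f ∈ H N | Real.log N ^ (-(1 / 2) : ℝ) * Real.exp (v * Real.sqrt (Real.log (Real.log N))) < |cv f|}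

open Pool.Agent.K4H13.CV Pool.Agent.Y18.BSD Pool.Agent.H485.CC

theorem lfun {N : ℕ} [NeZero N] {f : S2 N} {ε : ℝ} (hf : W388.IsNewf N 2 f ε) :
    ∃ L : ℂ → ℂ, IsLfun f L ∧ L (1 / 2) = (cv f : ℂ) := by
  obtain ⟨L, hL, -⟩ := exists_IsL hf
  have h : ∃ L : ℂ → ℂ, IsLfun f L := ⟨L, hL.diff, hL.eq⟩
  have h1 : cv f = (h.choose (1 / 2)).re := by
    unfold cv
    rw [dif_pos h]
  have h2 : h.choose (1 / 2) = bv f 0 := lv_eq hf ⟨h.choose_spec.1, h.choose_spec.2⟩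
  refine ⟨h.choose, h.choose_spec, ?_⟩
  rw [h1, h2]
  exact (bv_zero_real hf).symm

theorem cv_eq {N : ℕ} [NeZero N] {f : S2 N} {ε : ℝ} (hf : W388.IsNewf N 2 f ε) :
    (cv f : ℂ) = bv f 0 := by
  obtain ⟨L, hL, h⟩ := lfun hf
  rw [← h]
  exact lv_eq hf ⟨hL.1, hL.2⟩

theorem norm_cv {N : ℕ} [NeZero N] {f : S2 N} {ε : ℝ} (hf : W388.IsNewf N 2 f ε) :
    |cv f| = ‖bv f 0‖ := by
  rw [← cv_eq hf, Complex.norm_real, Real.norm_eq_abs]

theorem ev_primes {P : ℕ → Prop} (h : ∀ᶠ N : ℕ in atTop, N.Prime → P N) : ∀ᶠ N in primes, P N := by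
  unfold primes
  rw [eventually_inf_principal]
  exact h

theorem w_eq {N : ℕ} (f : S2 N) : w f = W388.LV.om f := by
  unfold w W388.LV.om W388.LV.ck
  norm_num [Real.Gamma_one]
  ring

theorem w_pos {N : ℕ} [NeZero N] {f : S2 N} {ε : ℝ} (hf : W388.IsNewf N 2 f ε) : 0 < w f := by
  have h1 : 0 < (W388.LV.pet N 2 f f).re := by
    apply ((W388.LV.q_pet N 2).2.2.2 f).2.2
    intro h0
    have h1 : W388.LV.bf f 1 = 1 := hf.one
    rw [h0, Pool.Agent.W347.LV.bf_zero] at h1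
    exact zero_ne_one h1
  unfold w
  have := Real.pi_pos
  positivity

theorem thr_eq {N : ℕ} (h : 0 < Real.log N) (v : ℝ) :
    Real.log N ^ (-(1 / 2) : ℝ) * Real.exp (v * Real.sqrt (Real.log (Real.log N))) =
      Real.exp (-(ll N / 2) + v * sl N) := by
  rw [Real.rpow_def_of_pos h, ← Real.exp_add]
  congr 1
  unfold sl ll
  ring

/-- the setting at a prime level -/
theorem setup {N : ℕ} (hN : N.Prime) : ∃ E : Finset (S2 N), (H N = (E : Set (S2 N))) ∧
    W388.LV.IsNewSet N 2 E ∧ (∀ f ∈ E, W388.IsNewf N 2 f 1) ∧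
    (3 ≤ N → N ≤ 36 * E.card + 65) := by
  classical
  have : NeZero N := ⟨hN.ne_zero⟩
  obtain ⟨B, hB, hBm⟩ := newform_basis N hN
  refine ⟨B.filter fun f => W388.IsNewf N 2 f 1, ?_, ?_, ?_, ?_⟩
  · ext f
    rw [Finset.mem_coe, Finset.mem_filter, hBm]
    exact ⟨fun h => ⟨⟨1, h⟩, h⟩, fun h => h.2⟩
  · exact IsNewSet.sub ⟨hB.newf, hB.orth⟩ (Finset.filter_subset _ _)
  · intro f hf
    exact (Finset.mem_filter.1 hf).2
  · intro h3
    exact even_card hN h3 hB hBm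

theorem big_eq {N : ℕ} [NeZero N] (h : 0 < Real.log N) (v : ℝ) {E : Finset (S2 N)} (hE : H N = (E : Set (S2 N))) :
    big v N = ((E.filter fun f => Real.exp (-(ll N / 2) + v * sl N) < ‖bv f 0‖ : Finset (S2 N)) : Set (S2 N)) := by
  ext f
  unfold big
  rw [thr_eq h, hE]
  rw [Finset.coe_filter]
  constructor
  · intro hf
    have h1 : f ∈ H N := by rw [hE]; exact hf.1
    exact ⟨hf.1, by rw [← norm_cv h1]; exact hf.2⟩
  · intro hf
    have h1 : f ∈ H N := by rw [hE]; exact hf.1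
    exact ⟨hf.1, by
      show _ < |cv f|
      rw [norm_cv h1]
      exact hf.2⟩

theorem har (v ε : ℝ) (hε : 0 < ε) : ∀ᶠ N in primes, ∑ᶠ f ∈ big v N, w f ≤ 1 / 2 * tail v + ε := by
  apply ev_primes
  filter_upwards [clt_L v hε, ev_log 1] with N h1 h2 hN
  have : NeZero N := ⟨hN.ne_zero⟩
  obtain ⟨E, hE, hE1, hE2, -⟩ := setup hN
  have hL : 0 < Real.log N := by linarith
  rw [big_eq hL v hE, finsum_mem_coe_finset]
  simp only [w_eq]
  exact h1 hN E hE1 hE2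

open Classical in
theorem nat_count (v ε : ℝ) (hε : 0 < ε) : ∀ᶠ N in primes,
    (((big v N).ncard : ℕ) : ℝ) ≤ (tail v + ε) * ((H N).ncard : ℝ) := by
  apply ev_primes
  filter_upwards [nat_final v hε, ev_log 1] with N h1 h2 hN
  have : NeZero N := ⟨hN.ne_zero⟩
  obtain ⟨B, hB, hBm⟩ := newform_basis N hN
  have hL : 0 < Real.log N := by linarith
  have hE : H N = ((B.filter fun f => W388.IsNewf N 2 f 1 : Finset (S2 N)) : Set (S2 N)) := by
    ext f
    rw [Finset.mem_coe, Finset.mem_filter, hBm]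
    exact ⟨fun h => ⟨⟨1, h⟩, h⟩, fun h => h.2⟩
  rw [big_eq hL v hE, Set.ncard_coe_finset, hE, Set.ncard_coe_finset]
  exact h1 hN B hB hBm

theorem fin_H {N : ℕ} (hN : N.Prime) : (H N).Finite := by
  obtain ⟨E, hE, -⟩ := setup hN
  rw [hE]
  exact E.finite_toSet

theorem tail_zero : tail 0 = 1 / 2 := by
  have h1 : (gaussianReal 0 1).real (Ioi 0) = (gaussianReal 0 1).real (Iio 0) := by
    have h2 : (gaussianReal 0 1).map (fun x : ℝ => -x) = gaussianReal 0 1 := by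
      rw [gaussianReal_map_neg, neg_zero]
    have h3 : (gaussianReal 0 1).real (Ioi 0) = ((gaussianReal 0 1).map (fun x : ℝ => -x)).real (Ioi 0) := by
      rw [h2]
    rw [h3, MeasureTheory.map_measureReal_apply measurable_neg measurableSet_Ioi]
    congr 1
    ext x
    simp
  have h4 : (gaussianReal 0 1).real (Ioi 0) + (gaussianReal 0 1).real (Iio 0) = 1 := by
    have h5 : MeasureTheory.NullSingletonClass (gaussianReal 0 1) := nullSingletonClass_gaussianReal one_ne_zero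
    have h7 : (gaussianReal 0 1).real {(0 : ℝ)} = 0 := by
      rw [MeasureTheory.measureReal_def, MeasureTheory.measure_singleton, ENNReal.toReal_zero]
    rw [← MeasureTheory.measureReal_union (by
      rw [Set.disjoint_left]
      intro x hx hx'
      exact lt_asymm (mem_Ioi.1 hx) (mem_Iio.1 hx')) measurableSet_Iio]
    have h6 : (Ioi (0 : ℝ) ∪ Iio 0) = {0}ᶜ := by
      ext x
      simp only [mem_union, mem_Ioi, mem_Iio, mem_compl_iff, mem_singleton_iff]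
      constructor
      · rintro (h | h)
        · exact h.ne'
        · exact h.ne
      · intro h
        rcases lt_or_gt_of_ne h with h | h
        · exact Or.inr h
        · exact Or.inl h
    rw [h6, MeasureTheory.probReal_compl_eq_one_sub (measurableSet_singleton _), h7, sub_zero]
  unfold tail
  linarith

theorem pA_le {A : ℝ} (hA : A ≤ 1 / 2) (ε : ℝ) (hε : 0 < ε) : ∀ᶠ N in primes, pA A N ≤ 1 / 2 + ε := by
  have h1 := nat_count 0 ε hε
  rw [tail_zero] at h1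
  have h2 : ∀ᶠ N : ℕ in primes, N.Prime := by
    unfold primes
    exact mem_inf_of_right (mem_principal_self _)
  have h3 : ∀ᶠ N : ℕ in primes, 1 ≤ Real.log N := by
    apply ev_primes
    filter_upwards [ev_log 1] with N h _
    exact h
  filter_upwards [h1, h2, h3] with N h1 hN hlog
  unfold pA
  have hsub : {f ∈ H N | Real.log N ^ (-A) < cv f} ⊆ big 0 N := by
    intro f hf
    refine ⟨hf.1, ?_⟩
    rw [zero_mul, Real.exp_zero, mul_one]
    refine lt_of_lt_of_le (lt_of_le_of_lt ?_ hf.2) (le_abs_self _)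
    exact Real.rpow_le_rpow_of_exponent_le hlog (by linarith)
  have hfin : (big 0 N).Finite := (fin_H hN).subset fun f hf => hf.1
  have h4 : (({f ∈ H N | Real.log N ^ (-A) < cv f}).ncard : ℝ) ≤ ((big 0 N).ncard : ℝ) := by
    exact_mod_cast Set.ncard_le_ncard hsub hfin
  rcases Nat.eq_zero_or_pos (H N).ncard with h0 | h0
  · rw [h0]
    simp
    positivity
  · rw [div_le_iff₀ (by exact_mod_cast h0)]
    exact h4.trans h1

theorem pA_nonneg (A : ℝ) (N : ℕ) : 0 ≤ pA A N := by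
  unfold pA
  positivity

instance : primes.NeBot := by
  unfold primes
  rw [← Filter.frequently_iff_neBot] 
  exact Nat.frequently_atTop_iff_infinite.2 Nat.infinite_setOfPred_prime

theorem pA_limsup {A : ℝ} (hA : A ≤ 1 / 2) : limsup (pA A) primes ≤ 1 / 2 := by
  have hb : IsCoboundedUnder (· ≤ ·) primes (pA A) :=
    (isBoundedUnder_of ⟨0, fun N => pA_nonneg A N⟩ : IsBoundedUnder (· ≥ ·) primes (pA A)).isCoboundedUnder_le
  apply le_of_forall_pos_le_add
  intro ε hε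
  exact limsup_le_of_le hb (pA_le hA ε hε)

theorem pA_liminf {A : ℝ} (hA : A ≤ 1 / 2) : liminf (pA A) primes ≤ 1 / 2 := by
  refine le_trans (liminf_le_limsup ?_ ?_) (pA_limsup hA)
  · exact ⟨1 / 2 + 1, (pA_le hA 1 one_pos)⟩
  · exact isBoundedUnder_of ⟨0, fun N => pA_nonneg A N⟩

theorem mass : ∃ c : ℝ, 0 < c ∧ ∀ ε : ℝ, 0 < ε → ∀ᶠ N in primes,
    c ≤ ∑ᶠ f ∈ H N, w f ∧ ∑ᶠ f ∈ H N, w f ≤ 1 / 2 + ε := by
  obtain ⟨c, hc0, hc⟩ := mass_low
  refine ⟨c, hc0, fun ε hε => ev_primes ?_⟩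
  filter_upwards [hc, ls_obs_even (2 * ε) (1 / 4) (by positivity) (by norm_num), eventually_ge_atTop 1]
    with N h1 h2 h3 hN
  have : NeZero N := ⟨hN.ne_zero⟩
  obtain ⟨E, hE, hE1, hE2, -⟩ := setup hN
  rw [hE, finsum_mem_coe_finset]
  simp only [w_eq]
  constructor
  · obtain ⟨B, hB, hBm⟩ := newform_basis N hN
    refine h1 hN B hB hBm E fun f => ⟨hE2 f, fun hf => ?_⟩
    have : f ∈ (E : Set (S2 N)) := by rw [← hE]; exact hf
    exact this
  · have k := h2 hN E hE1 hE2 ∅ (by simp) (by simp) 1 (fun _ => 1) (Obs.const le_rfl 1)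
      (Real.one_le_rpow (by exact_mod_cast h3) (by norm_num))
    simp only [one_pow, mul_one, MeasureTheory.integral_const, MeasureTheory.probReal_univ, smul_eq_mul] at k
    linarith

theorem result :
    (∀ N : ℕ, N.Prime → (H N).Finite ∧
      ∀ f ∈ H N, 0 < w f ∧ ∃ L : ℂ → ℂ, IsLfun f L ∧ L (1 / 2) = (cv f : ℂ)) ∧
    (∀ v ε : ℝ, 0 < ε → ∀ᶠ N in primes,
      (((big v N).ncard : ℕ) : ℝ) ≤ (tail v + ε) * ((H N).ncard : ℝ)) ∧
    (∀ A : ℝ, A ≤ 1 / 2 → limsup (pA A) primes ≤ 1 / 2 ∧ liminf (pA A) primes ≤ 1 / 2) ∧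
    (∀ v ε : ℝ, 0 < ε → ∀ᶠ N in primes, ∑ᶠ f ∈ big v N, w f ≤ 1 / 2 * tail v + ε) ∧
    (∃ c : ℝ, 0 < c ∧ ∀ ε : ℝ, 0 < ε → ∀ᶠ N in primes,
      c ≤ ∑ᶠ f ∈ H N, w f ∧ ∑ᶠ f ∈ H N, w f ≤ 1 / 2 + ε) := by
  refine ⟨fun N hN => ⟨fin_H hN, fun f hf => ?_⟩, nat_count, fun A hA => ⟨pA_limsup hA, pA_liminf hA⟩, har, mass⟩
  have : NeZero N := ⟨hN.ne_zero⟩
  exact ⟨w_pos hf, lfun hf⟩

end Pool.Agent.Results.MP_cc4f83_nt.NaturalCLT
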