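import Pool.Agent.H485.CC.Ldz

/-!
# Small central values are not too rare: the lower tail
-/

set_option autoImplicit false

open Filter Topology Set UpperHalfPlane MatrixGroups CongruenceSubgroup

namespace Pool.Agent.Results.MP_cc4f83_nt.SmallValues

/-- the cusp forms of weight 2 for `Γ₀(N)` -/
abbrev S2 (N : ℕ) : Type := CuspForm (Gamma0 N : Subgroup (GL (Fin 2) ℝ)) 2

/-- `H₂⁺(N)`, the even newforms: `a(1) = 1`, real coefficients, Hecke relations, and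
`f(-1/(Nz)) = - N z² f(z)` (see `W388.IsNewf`; root number `+1`) -/
def H (N : ℕ) : Set (S2 N) := {f | W388.IsNewf N 2 f 1}

/-- `L` is the L-function of `f`: the entire continuation of `∑ λ_f(n) n^(-s)`, where
`λ_f(n) = a(n) n^(-1/2)` -/
def IsLfun {N : ℕ} (f : S2 N) (L : ℂ → ℂ) : Prop :=
  Differentiable ℂ L ∧ ∀ s : ℂ, 3 < s.re → L s = ∑' n : ℕ, (W388.lamf f n : ℂ) * (n : ℂ) ^ (-s)

open Classical in
/-- the central value `L(1/2, f)` -/
noncomputable def cv {N : ℕ} (f : S2 N) : ℝ :=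
  if h : ∃ L : ℂ → ℂ, IsLfun f L then (h.choose (1 / 2)).re else 0

/-- the harmonic weight `1 / (4π⟨f, f⟩)`, where `⟨f, f⟩` is the integral of `|f|²` over
`Γ₀(N)∖ℍ` (with `y² dμ = dx dy`) -/
noncomputable def w {N : ℕ} (f : S2 N) : ℝ := 1 / (4 * Real.pi * (W388.LV.pet N 2 f f).re)

/-- the filter of the primes `N → ∞` -/
def primes : Filter ℕ := atTop ⊓ 𝓟 {N : ℕ | N.Prime}

/-- `p_A(N)`: the proportion of the even newforms of level `N` with
`L(1/2, f) > (log N)^(-A)` -/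
noncomputable def pA (A : ℝ) (N : ℕ) : ℝ :=
  (({f ∈ H N | Real.log N ^ (-A) < cv f}.ncard : ℕ) : ℝ) / (((H N).ncard : ℕ) : ℝ)

/-- the proportion of the even newforms of level `N` with `|L(1/2, f)| ≤ (log N)^(-A)` -/
noncomputable def sA (A : ℝ) (N : ℕ) : ℝ :=
  (({f ∈ H N | |cv f| ≤ Real.log N ^ (-A)}.ncard : ℕ) : ℝ) / (((H N).ncard : ℕ) : ℝ)

/-- the total harmonic weight of the even newforms of level `N` with
`|L(1/2, f)| ≤ (log N)^(-A)` -/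
noncomputable def wA (A : ℝ) (N : ℕ) : ℝ := ∑ᶠ f ∈ {f ∈ H N | |cv f| ≤ Real.log N ^ (-A)}, w f

open Pool.Agent.K4H13.CV Pool.Agent.Y18.BSD Pool.Agent.H485.CC

theorem lfun {N : ℕ} [NeZero N] {f : S2 N} {ε : ℝ} (hf : W388.IsNewf N 2 f ε) :
    ∃ L : ℂ → ℂ, IsLfun f L ∧ L (1 / 2) = (cv f : ℂ) := by
  obtain ⟨L, hL, -⟩ := exists_IsL hf
  have h : ∃ L : ℂ → ℂ, IsLfun f L := ⟨L, hL.diff, hL.eq⟩
  have h1 : cv f = (h.choose (1 / 2)).re := by
    unfold cv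
    rw [dif_pos h]
  have h2 : h.choose (1 / 2) = bv f 0 := lv_eq hf ⟨h.choose_spec.1, h.choose_spec.2⟩
  refine ⟨h.choose, h.choose_spec, ?_⟩
  rw [h1, h2]
  exact (bv_zero_real hf).symm

theorem cv_eq {N : ℕ} [NeZero N] {f : S2 N} {ε : ℝ} (hf : W388.IsNewf N 2 f ε) :
    (cv f : ℂ) = bv f 0 := by
  obtain ⟨L, hL, h⟩ := lfun hf
  rw [← h]
  exact lv_eq hf ⟨hL.1, hL.2⟩

theorem re_cv {N : ℕ} [NeZero N] {f : S2 N} {ε : ℝ} (hf : W388.IsNewf N 2 f ε) :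
    (bv f 0).re = cv f := by
  rw [← cv_eq hf, Complex.ofReal_re]

theorem norm_cv {N : ℕ} [NeZero N] {f : S2 N} {ε : ℝ} (hf : W388.IsNewf N 2 f ε) :
    |cv f| = ‖bv f 0‖ := by
  rw [← cv_eq hf, Complex.norm_real, Real.norm_eq_abs]

theorem ev_primes {P : ℕ → Prop} (h : ∀ᶠ N : ℕ in atTop, N.Prime → P N) : ∀ᶠ N in primes, P N := by
  unfold primes
  rw [eventually_inf_principal]
  exact h

theorem rpow_ll {N : ℕ} (h : 0 < Real.log N) (x : ℝ) : Real.log N ^ x = Real.exp (x * ll N) := by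
  rw [Real.rpow_def_of_pos h, mul_comm]
  rfl

theorem w_eq {N : ℕ} (f : S2 N) : w f = W388.LV.om f := by
  unfold w W388.LV.om W388.LV.ck
  norm_num [Real.Gamma_one]
  ring

theorem w_pos {N : ℕ} [NeZero N] {f : S2 N} {ε : ℝ} (hf : W388.IsNewf N 2 f ε) : 0 < w f := by
  have h1 : 0 < (W388.LV.pet N 2 f f).re := by
    apply ((W388.LV.q_pet N 2).2.2.2 f).2.2
    intro h0
    have h1 : W388.LV.bf f 1 = 1 := hf.one
    rw [h0, Pool.Agent.W347.LV.bf_zero] at h1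
    exact zero_ne_one h1
  unfold w
  have := Real.pi_pos
  positivity

/-- the setting at a prime level -/
theorem setup {N : ℕ} (hN : N.Prime) [NeZero N] : ∃ B E : Finset (S2 N), (H N = (E : Set (S2 N))) ∧
    W388.LV.IsNewBasis N 2 B ∧ (∀ f, f ∈ E ↔ f ∈ B ∧ W388.IsNewf N 2 f 1) ∧
    W388.LV.IsNewSet N 2 B ∧ (130 ≤ N → N ≤ 72 * E.card) := by
  classical
  obtain ⟨B, hB, hBm⟩ := newform_basis N hN
  obtain ⟨E, hE⟩ : ∃ E : Finset (S2 N), ∀ f, f ∈ E ↔ W388.IsNewf N 2 f 1 := by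
    refine ⟨B.filter fun f => W388.IsNewf N 2 f 1, fun f => ?_⟩
    rw [Finset.mem_filter, hBm]
    exact ⟨fun h => h.2, fun h => ⟨⟨1, h⟩, h⟩⟩
  refine ⟨B, E, ?_, hB, fun f => ?_, ⟨hB.newf, hB.orth⟩, fun h => ?_⟩
  · ext f
    rw [Finset.mem_coe, hE]
    rfl
  · rw [hE, hBm]
    exact ⟨fun h => ⟨⟨1, h⟩, h⟩, fun h => h.2⟩
  · have h4 := even_card hN (by omega) hB hBm
    have e1 : B.filter (fun f => W388.IsNewf N 2 f 1) = E := by
      ext f
      rw [Finset.mem_filter, hBm, hE]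
      exact ⟨fun h => h.2, fun h => ⟨⟨1, h⟩, h⟩⟩
    rw [e1] at h4
    omega

theorem mono_set {N : ℕ} (h : 1 ≤ Real.log N) {A A' : ℝ} (hA : A ≤ A') :
    Real.log N ^ (-A') ≤ Real.log N ^ (-A) :=
  Real.rpow_le_rpow_of_exponent_le h (by linarith)

theorem fin {N : ℕ} (hN : N.Prime) : (H N).Finite := by
  have : NeZero N := ⟨hN.ne_zero⟩
  obtain ⟨B, E, hE, -⟩ := setup hN
  rw [hE]
  exact E.finite_toSet


/-- the lower bound for the natural count -/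
theorem nat_one {A : ℝ} (hA1 : 1 / 2 < A) (hA2 : A < 3 / 2) {ε : ℝ} (hε : 0 < ε) :
    ∀ᶠ N in primes, Real.exp ((-((A - 1 / 2) ^ 2 / 2) - ε) * ll N) ≤ sA A N := by
  classical
  obtain ⟨C, hC0, hC⟩ := card_le
  apply ev_primes
  filter_upwards [nat_lowtail hA1 hA2 (half_pos hε), hC, ev_log 1,
    eventually_ge_atTop 130, ev_lin (C + 72) (half_pos hε)] with N h2 h3 h4 h5 h6 hN
  have : NeZero N := ⟨hN.ne_zero⟩
  have hN0 : (0 : ℝ) < N := by exact_mod_cast hN.pos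
  have hL : 0 < Real.log N := by linarith
  obtain ⟨B, E, hE, hB, hE1, hBs, hcard⟩ := setup hN
  have hEB : E ⊆ B := fun f hf => ((hE1 f).1 hf).1
  have k2 := h2 hN B hB E hE1
  have k3 := h3 hN B hBs
  have k4 : (N : ℝ) ≤ 72 * E.card := by exact_mod_cast hcard h5
  have k5 : (E.card : ℝ) ≤ C * N := le_trans (by exact_mod_cast Finset.card_le_card hEB) k3
  have hE0 : (0 : ℝ) < E.card := by linarith
  have hHc : (H N).ncard = E.card := by rw [hE, Set.ncard_coe_finset]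
  have he : C + 72 ≤ Real.exp (ε / 2 * ll N) := by
    have := Real.add_one_le_exp (ε / 2 * ll N)
    linarith
  set r : ℝ := -((A - 1 / 2) ^ 2 / 2) with hr
  unfold sA
  rw [hHc, le_div_iff₀ hE0]
  have e1 : ((E.filter fun f => ‖bv f 0‖ ≤ Real.exp (-A * ll N) : Finset (S2 N)) : Set (S2 N)) ⊆
      {f ∈ H N | |cv f| ≤ Real.log N ^ (-A)} := by
    intro f hf
    rw [Finset.mem_coe, Finset.mem_filter] at hf
    have hf1 := ((hE1 f).1 hf.1).2
    refine ⟨hf1, ?_⟩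
    rw [rpow_ll hL, norm_cv hf1]
    exact hf.2
  have e2 := Set.ncard_le_ncard e1 ((fin hN).subset fun f hf => hf.1)
  rw [Set.ncard_coe_finset] at e2
  have e3 : ((E.filter fun f => ‖bv f 0‖ ≤ Real.exp (-A * ll N)).card : ℝ) ≤
      (({f ∈ H N | |cv f| ≤ Real.log N ^ (-A)}.ncard : ℕ) : ℝ) := by exact_mod_cast e2
  refine le_trans ?_ (k2.trans e3)
  calc Real.exp ((r - ε) * ll N) * E.card ≤ Real.exp ((r - ε) * ll N) * (C * N) :=
        mul_le_mul_of_nonneg_left k5 (Real.exp_pos _).le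
    _ = N * (C * Real.exp ((r - ε) * ll N)) := by ring
    _ ≤ N * (Real.exp (ε / 2 * ll N) * Real.exp ((r - ε) * ll N)) :=
        mul_le_mul_of_nonneg_left (mul_le_mul_of_nonneg_right (by linarith) (Real.exp_pos _).le) hN0.le
    _ = _ := by
      rw [← Real.exp_add]
      congr 2
      ring

/-- the lower bound for the harmonic weights -/
theorem har_one {A : ℝ} (hA1 : 1 / 2 < A) (hA2 : A < 3 / 2) {ε : ℝ} (hε : 0 < ε) :
    ∀ᶠ N in primes, Real.exp ((-((A - 1 / 2) ^ 2 / 2) - ε) * ll N) ≤ wA A N := by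
  classical
  apply ev_primes
  filter_upwards [har_tail_cv hA1 hA2 hε, ev_log 1] with N h2 h3 hN
  have : NeZero N := ⟨hN.ne_zero⟩
  have hL : 0 < Real.log N := by linarith
  obtain ⟨B, E, hE, hB, hE1, hBs, -⟩ := setup hN
  have hset : {f ∈ H N | |cv f| ≤ Real.log N ^ (-A)} =
      ((E.filter fun f => ‖bv f 0‖ ≤ Real.exp (-A * ll N) : Finset (S2 N)) : Set (S2 N)) := by
    ext f
    rw [hE, Finset.coe_filter]
    constructor
    · intro hf
      have h1 := ((hE1 f).1 hf.1).2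
      exact ⟨hf.1, by rw [← norm_cv h1, ← rpow_ll hL]; exact hf.2⟩
    · intro hf
      have h1 := ((hE1 f).1 hf.1).2
      exact ⟨hf.1, by rw [norm_cv h1, rpow_ll hL]; exact hf.2⟩
  have e0 : wA A N = ∑ f ∈ E with ‖bv f 0‖ ≤ Real.exp (-A * ll N), W388.LV.om f := by
    unfold wA
    rw [hset, finsum_mem_coe_finset]
    exact Finset.sum_congr rfl fun f _ => w_eq f
  rw [e0]
  exact h2 hN B hB E hE1

theorem sA_anti {N : ℕ} (hN : N.Prime) (h : 1 ≤ Real.log N) {A A' : ℝ} (hA : A ≤ A') : sA A' N ≤ sA A N := by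
  unfold sA
  refine div_le_div_of_nonneg_right ?_ (Nat.cast_nonneg _)
  have e1 : {f ∈ H N | |cv f| ≤ Real.log N ^ (-A')} ⊆ {f ∈ H N | |cv f| ≤ Real.log N ^ (-A)} :=
    fun f hf => ⟨hf.1, hf.2.trans (mono_set h hA)⟩
  exact_mod_cast Set.ncard_le_ncard e1 ((fin hN).subset fun f hf => hf.1)

theorem wA_anti {N : ℕ} (hN : N.Prime) (h : 1 ≤ Real.log N) {A A' : ℝ} (hAA : A ≤ A') : wA A' N ≤ wA A N := by
  have : NeZero N := ⟨hN.ne_zero⟩
  have hf1 : {f ∈ H N | |cv f| ≤ Real.log N ^ (-A')}.Finite := (fin hN).subset fun f hf => hf.1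
  have hf2 : {f ∈ H N | |cv f| ≤ Real.log N ^ (-A)}.Finite := (fin hN).subset fun f hf => hf.1
  have e1 : {f ∈ H N | |cv f| ≤ Real.log N ^ (-A')} ⊆ {f ∈ H N | |cv f| ≤ Real.log N ^ (-A)} :=
    fun f hf => ⟨hf.1, hf.2.trans (mono_set h hAA)⟩
  unfold wA
  rw [finsum_mem_eq_finite_toFinset_sum _ hf1, finsum_mem_eq_finite_toFinset_sum _ hf2]
  refine Finset.sum_le_sum_of_subset_of_nonneg ?_ fun f _ _ => ?_
  · intro f hf
    rw [Set.Finite.mem_toFinset] at hf ⊢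
    exact e1 hf
  · rw [w_eq]
    exact om_nonneg f

theorem add_le_one {N : ℕ} (hN : N.Prime) (A : ℝ) : pA A N + sA A N ≤ 1 := by
  have hf1 : {f ∈ H N | Real.log N ^ (-A) < cv f}.Finite := (fin hN).subset fun f hf => hf.1
  have hf2 : {f ∈ H N | |cv f| ≤ Real.log N ^ (-A)}.Finite := (fin hN).subset fun f hf => hf.1
  have hd : Disjoint {f ∈ H N | Real.log N ^ (-A) < cv f} {f ∈ H N | |cv f| ≤ Real.log N ^ (-A)} := by
    rw [Set.disjoint_left]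
    intro f h1 h2
    have h3 := h1.2
    have h4 := h2.2
    have h5 := le_abs_self (cv f)
    linarith
  have e1 : {f ∈ H N | Real.log N ^ (-A) < cv f} ∪ {f ∈ H N | |cv f| ≤ Real.log N ^ (-A)} ⊆ H N := by
    rintro f (hf | hf)
    · exact hf.1
    · exact hf.1
  have e2 := Set.ncard_le_ncard e1 (fin hN)
  rw [Set.ncard_union_eq hd hf1 hf2] at e2
  unfold pA sA
  rw [← add_div]
  apply div_le_one_of_le₀ _ (Nat.cast_nonneg _)
  exact_mod_cast e2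

/-- from pointwise to uniform bounds -/
theorem unif {F : ℝ → ℕ → ℝ}
    (hF : ∀ N : ℕ, N.Prime → 1 ≤ Real.log N → ∀ A A' : ℝ, A ≤ A' → F A' N ≤ F A N)
    (h : ∀ A : ℝ, 1 / 2 < A → A < 3 / 2 → ∀ ε : ℝ, 0 < ε →
      ∀ᶠ N in primes, Real.exp ((-((A - 1 / 2) ^ 2 / 2) - ε) * ll N) ≤ F A N)
    {δ ε : ℝ} (hδ : 0 < δ) (hε : 0 < ε) :
    ∀ᶠ N : ℕ in primes, ∀ A : ℝ, 1 / 2 ≤ A → A ≤ 3 / 2 - δ →
      Real.log N ^ (-((A - 1 / 2) ^ 2 / 2) - ε) ≤ F A N := by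
  obtain ⟨K, hK⟩ := exists_nat_gt (4 / ε + 4 / δ + 1)
  have hε' : 0 < 4 / ε := by positivity
  have hδ' : 0 < 4 / δ := by positivity
  have hK0 : (0 : ℝ) < K := by linarith
  set h0 : ℝ := 1 / K with hh
  have hh0 : 0 < h0 := by positivity
  have hh1 : h0 ≤ ε / 4 := by
    rw [hh, div_le_iff₀ hK0]
    have : 4 / ε ≤ K := by linarith
    rw [div_le_iff₀ hε] at this
    linarith
  have hh2 : h0 ≤ δ / 4 := by
    rw [hh, div_le_iff₀ hK0]
    have : 4 / δ ≤ K := by linarith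
    rw [div_le_iff₀ hδ] at this
    linarith
  have hh3 : h0 ≤ 1 := by
    rw [hh, div_le_iff₀ hK0]
    linarith
  have hKh : K * h0 = 1 := by rw [hh]; field_simp
  have hgrid : ∀ i ∈ Finset.range K, ∀ᶠ N in primes, (1 / 2 + (i + 1) * h0 < 3 / 2 →
      Real.exp ((-((1 / 2 + (i + 1) * h0 - 1 / 2) ^ 2 / 2) - ε / 2) * ll N) ≤ F (1 / 2 + (i + 1) * h0) N) := by
    intro i _
    by_cases hi : 1 / 2 + ((i : ℝ) + 1) * h0 < 3 / 2
    · have h1 : 1 / 2 < 1 / 2 + ((i : ℝ) + 1) * h0 := by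
        have : 0 < ((i : ℝ) + 1) * h0 := by positivity
        linarith
      filter_upwards [h _ h1 hi (ε / 2) (half_pos hε)] with N hN _
      exact hN
    · exact Eventually.of_forall fun N hN => absurd hN hi
  have hb : ∀ᶠ N : ℕ in primes, N.Prime ∧ 1 ≤ Real.log N ∧ 0 < ll N := by
    apply ev_primes
    filter_upwards [ev_log 1, ev_ll 1] with N h1 h2 hN
    exact ⟨hN, h1, by linarith⟩
  filter_upwards [hb, (Finset.eventually_all _).2 hgrid] with N k1 k2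
  obtain ⟨hN, hlog, hll⟩ := k1
  intro A hA1 hA2
  set i : ℕ := ⌊(A - 1 / 2) / h0⌋₊ with hi
  have q0 : 0 ≤ (A - 1 / 2) / h0 := div_nonneg (by linarith) hh0.le
  have q1 : (i : ℝ) ≤ (A - 1 / 2) / h0 := Nat.floor_le q0
  have q2 : (A - 1 / 2) / h0 < i + 1 := Nat.lt_floor_add_one _
  rw [le_div_iff₀ hh0] at q1
  rw [div_lt_iff₀ hh0] at q2
  have q3 : i < K := by
    have : (i : ℝ) * h0 < K * h0 := by rw [hKh]; linarith
    have := lt_of_mul_lt_mul_right this hh0.le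
    exact_mod_cast this
  have q4 : 1 / 2 + ((i : ℝ) + 1) * h0 < 3 / 2 := by
    have : ((i : ℝ) + 1) * h0 = i * h0 + h0 := by ring
    rw [this]
    linarith
  have k3 := k2 i (Finset.mem_range.2 q3) q4
  have k4 := hF N hN hlog A (1 / 2 + (i + 1) * h0) (by linarith)
  rw [rpow_ll (by linarith)]
  refine le_trans (Real.exp_le_exp.2 (mul_le_mul_of_nonneg_right ?_ hll.le)) (k3.trans k4)
  have e1 : (1 / 2 + ((i : ℝ) + 1) * h0 - 1 / 2) ≤ (A - 1 / 2) + h0 := by linarith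
  have e2 : 0 ≤ (1 / 2 + ((i : ℝ) + 1) * h0 - 1 / 2) := by
    have : 0 ≤ ((i : ℝ) + 1) * h0 := by positivity
    linarith
  have e3 := pow_le_pow_left₀ e2 e1 2
  have e4 : ((A - 1 / 2) + h0) ^ 2 ≤ (A - 1 / 2) ^ 2 + 3 * h0 := by
    have f1 : ((A - 1 / 2) + h0) ^ 2 = (A - 1 / 2) ^ 2 + 2 * ((A - 1 / 2) * h0) + h0 * h0 := by ring
    have f2 : (A - 1 / 2) * h0 ≤ 1 * h0 := mul_le_mul_of_nonneg_right (by linarith) hh0.le
    have f3 : h0 * h0 ≤ 1 * h0 := mul_le_mul_of_nonneg_right hh3 hh0.le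
    linarith
  linarith

theorem result :
    (∀ N : ℕ, N.Prime → (H N).Finite ∧
      ∀ f ∈ H N, 0 < w f ∧ ∃ L : ℂ → ℂ, IsLfun f L ∧ L (1 / 2) = (cv f : ℂ)) ∧
    (∀ δ ε : ℝ, 0 < δ → 0 < ε → ∀ᶠ N : ℕ in primes, ∀ A : ℝ, 1 / 2 ≤ A → A ≤ 3 / 2 - δ →
      Real.log N ^ (-((A - 1 / 2) ^ 2 / 2) - ε) ≤ sA A N ∧
      pA A N ≤ 1 - Real.log N ^ (-((A - 1 / 2) ^ 2 / 2) - ε) ∧
      Real.log N ^ (-((A - 1 / 2) ^ 2 / 2) - ε) ≤ wA A N) := by
  refine ⟨fun N hN => ?_, fun δ ε hδ hε => ?_⟩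
  · have : NeZero N := ⟨hN.ne_zero⟩
    exact ⟨fin hN, fun f hf => ⟨w_pos hf, lfun hf⟩⟩
  · have hb : ∀ᶠ N : ℕ in primes, N.Prime := ev_primes (Eventually.of_forall fun N h => h)
    filter_upwards [unif (F := sA) (fun N hN h A A' => sA_anti hN h) (fun A h1 h2 ε h3 => nat_one h1 h2 h3) hδ hε,
      unif (F := wA) (fun N hN h A A' => wA_anti hN h) (fun A h1 h2 ε h3 => har_one h1 h2 h3) hδ hε, hb] with
      N k1 k2 k3 A hA1 hA2
    have k4 := add_le_one k3 A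
    have k5 := k1 A hA1 hA2
    exact ⟨k5, by linarith, k2 A hA1 hA2⟩

end Pool.Agent.Results.MP_cc4f83_nt.SmallValues
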